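import Pool.Agent.helper88.EF.Defs
import Pool.Agent.helper76.LP.Main2
import Pool.Agent.helper15.EF.CO
import Pool.Agent.helper82.EF.GF
import Pool.Agent.helper1.EF.FN

/-! # Project EF, module S65 -/

namespace Pool.Agent.helper88.EF

open Finset Pool.Agent.helper76.LP

lemma S65_five : (5 : ℕ) ∣ 65 := ⟨13, rfl⟩

lemma S65_mem (w : (ZMod 65)ˣ) : w ∈ Gam 65 13 ↔ ZMod.unitsMap S65_five w = 1 := by
  unfold Gam
  rw [dif_pos (by norm_num : 13 ∣ 65), MonoidHom.mem_ker]

/-- the unit 14 -/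
def S65_u : (ZMod 65)ˣ := ⟨14, 14, by decide, by decide⟩

lemma S65_u_mem : S65_u ∈ Gam 65 5 := by
  unfold Gam
  rw [dif_pos (by norm_num : 5 ∣ 65), MonoidHom.mem_ker]
  decide

lemma S65_u_map : ZMod.unitsMap S65_five S65_u = -1 := by decide

lemma S65_neg_map (z : (ZMod 65)ˣ) : ZMod.unitsMap S65_five (-z) =
    - ZMod.unitsMap S65_five z := by
  ext
  simp [ZMod.unitsMap]

lemma S65_Vneg (f : (ZMod 65)ˣ → ℤ) (hf : ∀ x, f (-x) = - f x) (a : (ZMod 5)ˣ) :
    Vs S65_five f (-a) = - Vs S65_five f a := by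
  unfold Vs
  rw [← Finset.sum_neg_distrib, ← Equiv.sum_comp (Equiv.neg (ZMod 65)ˣ)]
  refine Finset.sum_congr rfl fun z _ => ?_
  rw [Equiv.neg_apply, S65_neg_map, hf]
  simp only [neg_inj]
  split_ifs
  · rfl
  · simp

lemma S65_key (f : (ZMod 65)ˣ → ℤ) (hf : MDv (Gam 65) [5, 13] f) (u : (ZMod 65)ˣ)
    (hu : u ∈ Gam 65 5) (x : (ZMod 65)ˣ) :
    Vs S65_five f (ZMod.unitsMap S65_five (u * x)) - Vs S65_five f (ZMod.unitsMap S65_five x) =
      12 * (f (u * x) - f x) := by
  classical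
  have hV : ∀ x : (ZMod 65)ˣ, Vs S65_five f (ZMod.unitsMap S65_five x) =
      ∑ w : (ZMod 65)ˣ, if w ∈ Gam 65 13 then f (w * x) else 0 := by
    intro x
    unfold Vs
    rw [← Equiv.sum_comp (Equiv.mulRight x)]
    refine Finset.sum_congr rfl fun w _ => ?_
    rw [Equiv.coe_mulRight, map_mul]
    simp only [mul_eq_right, S65_mem]
  rw [hV, hV, ← Finset.sum_sub_distrib]
  have h1 : ∀ w : (ZMod 65)ˣ, ((if w ∈ Gam 65 13 then f (w * (u * x)) else 0) -
      (if w ∈ Gam 65 13 then f (w * x) else 0)) =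
      if w ∈ Gam 65 13 then (f (u * x) - f x) else 0 := by
    intro w
    split_ifs with h
    · have h2 := hf u hu w h x
      simp only at h2
      have h3 : w * (u * x) = u * (w * x) := by rw [← mul_assoc, mul_comm w u, mul_assoc]
      rw [h3]
      linarith
    · rfl
  have h2 : (univ.filter (fun w : (ZMod 65)ˣ => w ∈ Gam 65 13)).card = Nat.card (Gam 65 13) := by
    rw [Nat.card_eq_fintype_card, Fintype.card_subtype]
  have h3 : Nat.card (Gam 65 13) = 12 := by
    rw [card_Gam 65 13 (by norm_num) (by norm_num)]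
    norm_num
  rw [Finset.sum_congr rfl fun w _ => h1 w, ← Finset.sum_filter, Finset.sum_const, nsmul_eq_mul,
    h2, h3]
  rfl

/-- the test function -/
def S65_psi (a : (ZMod 5)ˣ) (z : (ZMod 65)ˣ) : ℤ :=
  (if ZMod.unitsMap S65_five z = a then 1 else 0) -
    (if ZMod.unitsMap S65_five z = -a then 1 else 0)

lemma S65_sum (a : (ZMod 5)ˣ) (f : (ZMod 65)ˣ → ℤ) :
    ∑ z, f z * S65_psi a z = Vs S65_five f a - Vs S65_five f (-a) := by
  unfold Vs S65_psi
  rw [← Finset.sum_sub_distrib]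
  refine Finset.sum_congr rfl fun z _ => ?_
  split_ifs <;> simp

lemma S65_tst (a : (ZMod 5)ˣ) : Tst 65 13 (S65_psi a) := by
  classical
  intro p hp hp13 z
  have hp5 : p = 5 := by
    have h1 := Nat.prime_of_mem_primeFactors hp
    have h2 := Nat.dvd_of_mem_primeFactors hp
    have h3 : p ∣ 5 * 13 := h2
    rcases (Nat.Prime.dvd_mul h1).1 h3 with h | h
    · exact (Nat.prime_dvd_prime_iff_eq h1 (by norm_num)).1 h
    · exact absurd ((Nat.prime_dvd_prime_iff_eq h1 (by norm_num)).1 h) hp13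
  subst hp5
  have h1 : gsum (Gam 65 5) (S65_psi a) z = - gsum (Gam 65 5) (S65_psi a) z := by
    unfold gsum
    rw [← Finset.sum_neg_distrib]
    conv_lhs => rw [← Equiv.sum_comp (Equiv.mulLeft S65_u)]
    refine Finset.sum_congr rfl fun w _ => ?_
    rw [Equiv.coe_mulLeft]
    have h2 : S65_u * w ∈ Gam 65 5 ↔ w ∈ Gam 65 5 :=
      Subgroup.mul_mem_cancel_left _ S65_u_mem
    have h3 : S65_psi a (S65_u * w * z) = - S65_psi a (w * z) := by
      unfold S65_psi
      rw [mul_assoc, map_mul, S65_u_map, neg_one_mul]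
      simp only [neg_eq_iff_eq_neg, neg_neg]
      ring
    rw [h3]
    simp only [h2]
    split_ifs <;> simp
  omega

lemma S65_bd (a : (ZMod 5)ˣ) (ev : Prop) : Bd 65 ev (S65_psi a) 1 := by
  have hval : ∀ z : (ZMod 65)ˣ, |S65_psi a z| ≤ 1 := by
    intro z
    unfold S65_psi
    split_ifs <;> simp
  refine ⟨hval, ?_⟩
  intro _ _ z z' hz
  have hz2 : ((ZMod.unitsMap S65_five z' : (ZMod 5)ˣ) : ZMod 5) =
      2 * ((ZMod.unitsMap S65_five z : (ZMod 5)ˣ) : ZMod 5) := by
    have h1 := congrArg (ZMod.castHom S65_five (ZMod 5)) hz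
    rw [map_mul, map_ofNat] at h1
    exact h1
  have h5 : ∀ a b b' : (ZMod 5)ˣ, (b' : ZMod 5) = 2 * (b : ZMod 5) →
      |(((if b' = a then 1 else 0) - (if b' = -a then 1 else 0)) -
        ((if b = a then 1 else 0) - (if b = -a then 1 else 0)) : ℤ)| ≤ 1 := by decide
  exact h5 a _ _ hz2

/-- module S65, with the statement of module FN (`func`) as a hypothesis -/
theorem s65_of
    (func : ∀ (m D q : ℕ) [NeZero m] [NeZero D] (_ : D ∣ m) (c0 c : ZMod m → ℤ)
      (_ : QEq q c0 c) (_ : ∀ x, D ∣ addOrderOf x → addOrderOf x ≠ D → anti c x = 0)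
      (ψ : (ZMod D)ˣ → ℤ) (s : ZMod m → ℚ) (_ : Ext m D q ψ s),
      (((∑ z : (ZMod D)ˣ, anti c (emb D m (z : ZMod D)) * ψ z : ℤ) : ℚ)) =
        ∑ x, (anti c0 x : ℚ) * s x)
    (m : ℕ) [NeZero m] (hD : 65 ∣ m) (c0 c : ZMod m → ℤ) (hT : TateF (anti c0))
    (hI : Inv (anti c0)) (hQ : QEq 13 c0 c)
    (hmax : ∀ x, anti c x ≠ 0 → 13 ∣ addOrderOf x → addOrderOf x ≤ 65) :
    MDv (Gam 65) [5] (fun z => anti c (emb 65 m (z : ZMod 65))) := by
  classical
  have hTc : TateF (anti c) := hQ.2.1 hT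
  have hmax2 : ∀ x, 65 ∣ addOrderOf x → addOrderOf x ≠ 65 → anti c x = 0 := by
    intro x hx hx2
    by_contra h
    have h1 := hmax x h ((by norm_num : 13 ∣ 65).trans hx)
    have h2 := Nat.le_of_dvd (addOrderOf_pos x) hx
    omega
  set f : (ZMod 65)ˣ → ℤ := fun z => anti c (emb 65 m (z : ZMod 65)) with hf
  have hodd : ∀ x, f (-x) = - f x := by
    intro x
    rw [hf]
    simp only
    rw [Units.val_neg, emb_neg hD, anti_odd]
  have hmd : MDv (Gam 65) [5, 13] f := by
    refine mdiff m (anti c) (anti_odd c) hTc 65 hD hmax2 [5, 13] ?_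
    intro p hp
    have h1 := Nat.prime_of_mem_primeFactors hp
    have h2 : p ∣ 5 * 13 := Nat.dvd_of_mem_primeFactors hp
    rcases (Nat.Prime.dvd_mul h1).1 h2 with h | h
    · rw [(Nat.prime_dvd_prime_iff_eq h1 (by norm_num)).1 h]; simp
    · rw [(Nat.prime_dvd_prime_iff_eq h1 (by norm_num)).1 h]; simp
  have hVneg := S65_Vneg f hodd
  have hV : ∀ a, Vs S65_five f a = 0 := by
    by_contra hne
    push Not at hne
    obtain ⟨a, ha⟩ := hne
    obtain ⟨s, hs, hsB⟩ := gf m 65 13 hD (by norm_num) (by norm_num) (S65_psi a) (S65_tst a) 1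
      (S65_bd a _)
    have hfunc := func m 65 13 hD c0 c hQ hmax2 (S65_psi a) s hs
    have hsum := S65_sum a f
    rw [hVneg] at hsum
    -- divisibility by 12
    have h12 : (12 : ℤ) ≤ |∑ z, f z * S65_psi a z| := by
      obtain ⟨x, hx⟩ := ZMod.unitsMap_surjective S65_five (-a)
      have h1 := S65_key f hmd S65_u S65_u_mem x
      rw [map_mul, S65_u_map, neg_one_mul, hx, neg_neg, hVneg] at h1
      rw [hsum, h1, abs_mul]
      have h2 : f (S65_u * x) - f x ≠ 0 := by
        intro h3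
        rw [h3, mul_zero] at h1
        omega
      have h3 := Int.one_le_abs h2
      have h4 : |(12 : ℤ)| = 12 := by norm_num
      rw [h4]
      linarith
    -- termwise estimate
    have hle : ∀ x ∈ (univ : Finset (ZMod m)), |(anti c0 x : ℚ) * s x| ≤
        ((if addOrderOf x ∣ 60 then 0 else |anti c0 x| : ℤ) : ℚ) := by
      intro x _
      rw [abs_mul]
      by_cases h0 : s x = 0
      · rw [h0, abs_zero, mul_zero]
        split_ifs
        · simp
        · exact_mod_cast abs_nonneg _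
      · have h1 := (hs.supp x h0).1
        have h2 : ¬ addOrderOf x ∣ 60 := by
          intro h
          have := h1.trans h
          omega
        rw [if_neg h2]
        push_cast
        have h3 : |s x| ≤ 1 := by simpa using hsB x
        calc |(anti c0 x : ℚ)| * |s x| ≤ |(anti c0 x : ℚ)| * 1 :=
              mul_le_mul_of_nonneg_left h3 (abs_nonneg _)
          _ = |(anti c0 x : ℚ)| := mul_one _
    have h1 : ((12 : ℤ) : ℚ) ≤ ∑ x, |(anti c0 x : ℚ) * s x| := by
      calc ((12 : ℤ) : ℚ) ≤ ((|∑ z, f z * S65_psi a z| : ℤ) : ℚ) := by exact_mod_cast h12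
        _ = |∑ x, (anti c0 x : ℚ) * s x| := by rw [← hfunc]; push_cast; rfl
        _ ≤ ∑ x, |(anti c0 x : ℚ) * s x| := Finset.abs_sum_le_sum_abs _ _
    have h2 : ∑ x : ZMod m, ((if addOrderOf x ∣ 60 then 0 else |anti c0 x| : ℤ) : ℚ) ≤
        ((12 : ℤ) : ℚ) := by
      have := hI.1
      exact_mod_cast this
    have h3 := Finset.sum_le_sum hle
    have h4 : ∑ x, |(anti c0 x : ℚ) * s x| =
        ∑ x : ZMod m, ((if addOrderOf x ∣ 60 then 0 else |anti c0 x| : ℤ) : ℚ) :=
      le_antisymm h3 (h2.trans h1)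
    have h5 := (Finset.sum_eq_sum_iff_of_le hle).1 h4
    have h6 : ∑ x : ZMod m, (if addOrderOf x ∣ 60 then 0 else |anti c0 x| : ℤ) = 12 := by
      have h7 : ∑ x : ZMod m, ((if addOrderOf x ∣ 60 then 0 else |anti c0 x| : ℤ) : ℚ) =
          ((12 : ℤ) : ℚ) := le_antisymm h2 (h1.trans h3)
      exact_mod_cast h7
    have h7 := hI.2 h6
    -- the support of `anti c0`
    have h8 : ∀ x, anti c0 x ≠ 0 → 65 ∣ addOrderOf x := by
      intro x hx
      by_cases h60 : addOrderOf x ∣ 60
      · exact absurd (h7 x h60) hx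
      · have h9 := h5 x (Finset.mem_univ x)
        rw [if_neg h60] at h9
        have h10 : s x ≠ 0 := by
          intro h
          rw [h, mul_zero, abs_zero] at h9
          apply hx
          have h11 : (|anti c0 x| : ℤ) = 0 := by exact_mod_cast h9.symm
          exact abs_eq_zero.1 h11
        exact (hs.supp x h10).1
    have hmax5 : ∀ x, 5 ∣ addOrderOf x → addOrderOf x ≠ 5 * 13 → anti c x = 0 := by
      intro x hx5 hx65
      by_contra hx
      by_cases h13 : 13 ∣ addOrderOf x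
      · have h9 := hmax x hx h13
        have h10 : 5 * 13 ∣ addOrderOf x :=
          Nat.Coprime.mul_dvd_of_dvd_of_dvd (by norm_num) hx5 h13
        have h11 := Nat.le_of_dvd (addOrderOf_pos x) h10
        omega
      · rw [hQ.2.2.1 x h13] at hx
        exact h13 ((by norm_num : 13 ∣ 65).trans (h8 x hx))
    have hcond := cond m 13 5 (by norm_num) (by norm_num) (by norm_num) hD c hTc hmax5 [5]
      (by simp) (by rw [Nat.Prime.primeFactors (by norm_num)]; rfl)
    change MDv (Gam 5) [5] (fun y => Vs S65_five f y -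
      Vs S65_five f (ZMod.unitOfCoprime 13 _ * y)) at hcond
    have hm1 : (-1 : (ZMod 5)ˣ) ∈ Gam 5 5 := by
      unfold Gam
      rw [dif_pos (dvd_refl 5), MonoidHom.mem_ker]
      decide
    set t : (ZMod 5)ˣ := ZMod.unitOfCoprime 13 (by norm_num) with ht
    have hg : ∀ y, Vs S65_five f y = Vs S65_five f (t * y) := by
      intro y
      have h9 := hcond (-1) hm1 y
      simp only at h9
      rw [neg_one_mul, mul_neg, hVneg, hVneg] at h9
      omega
    have htt : t * (t * a) = - a := by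
      rw [← mul_assoc]
      have : t * t = -1 := by rw [ht]; decide
      rw [this, neg_one_mul]
    have h9 := hg a
    have h10 := hg (t * a)
    rw [htt, hVneg] at h10
    omega
  intro u hu x
  have h1 := S65_key f hmd u hu x
  rw [hV, hV] at h1
  change f (u * x) - f x = 0
  omega

/-- module S65 -/
theorem s65 (m : ℕ) [NeZero m] (hD : 65 ∣ m) (c0 c : ZMod m → ℤ) (hT : TateF (anti c0))
    (hI : Inv (anti c0)) (hQ : QEq 13 c0 c)
    (hmax : ∀ x, anti c x ≠ 0 → 13 ∣ addOrderOf x → addOrderOf x ≤ 65) :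
    MDv (Gam 65) [5] (fun z => anti c (emb 65 m (z : ZMod 65))) :=
  s65_of (fun m D q _ _ hD c0 c hQ hmax ψ s hs => func m D q hD c0 c hQ hmax ψ s hs)
    m hD c0 c hT hI hQ hmax

end Pool.Agent.helper88.EF
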