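import Pool.Agent.helper88.EF.Defs
import Pool.Agent.helper76.LP.Main2
import Pool.Agent.helper15.EF.FX

/-! # Project EF, module SM: smooth orders without multiples of 420 -/

namespace Pool.Agent.helper88.EF

open Finset Pool.Agent.helper76.LP

/-- at most three primes -/
lemma SM_card (D : ℕ) (hpr : ∀ p ∈ D.primeFactors, p ≤ 7) (h420 : ¬ 420 ∣ D)
    (hprod : D = ∏ p ∈ D.primeFactors, (if p = 2 then 4 else p)) : D.primeFactors.card ≤ 3 := by
  by_contra hc
  push Not at hc
  have hsub : D.primeFactors ⊆ ({2, 3, 5, 7} : Finset ℕ) := by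
    intro p hp
    have h1 := hpr p hp
    have h2 := Nat.prime_of_mem_primeFactors hp
    simp only [Finset.mem_insert, Finset.mem_singleton]
    interval_cases p <;> first | omega | (exfalso; revert h2; norm_num)
  have heq : D.primeFactors = ({2, 3, 5, 7} : Finset ℕ) := by
    apply Finset.eq_of_subset_of_card_le hsub
    have : ({2, 3, 5, 7} : Finset ℕ).card = 4 := by decide
    omega
  rw [heq] at hprod
  have h2 : D = 420 := by
    rw [hprod]
    decide
  exact h420 (by rw [h2])

lemma SM_pair (p q : ℕ) (hp : p.Prime) (hq : q.Prime) (hp7 : p ≤ 7) (hq7 : q ≤ 7) (hpq : p ≠ q) :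
    (if p = 2 then 4 else p) * (if q = 2 then 4 else q) ∈
      ({12, 15, 20, 21, 28, 35} : Finset ℕ) := by
  have h1 : p ∈ ({2, 3, 5, 7} : Finset ℕ) := by
    simp only [Finset.mem_insert, Finset.mem_singleton]
    interval_cases p <;> first | omega | (exfalso; revert hp; norm_num)
  have h2 : q ∈ ({2, 3, 5, 7} : Finset ℕ) := by
    simp only [Finset.mem_insert, Finset.mem_singleton]
    interval_cases q <;> first | omega | (exfalso; revert hq; norm_num)
  have key : ∀ p ∈ ({2, 3, 5, 7} : Finset ℕ), ∀ q ∈ ({2, 3, 5, 7} : Finset ℕ), p ≠ q →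
      (if p = 2 then 4 else p) * (if q = 2 then 4 else q) ∈
        ({12, 15, 20, 21, 28, 35} : Finset ℕ) := by decide
  exact key p h1 q h2 hpq

open Pool.Agent.helper34.DH in
/-- one stage -/
lemma SM_stage (E : AddSubgroup Qt) (hE : hh ∈ E)
    (hF : ∀ D : ℕ, ∀ _ : NeZero D, D ∈ ({12, 15, 20, 21, 28, 35} : Finset ℕ) → FixE E D)
    (m : ℕ) [NeZero m] (D : ℕ) [NeZero D] (hD : D ∣ m) (hpr : ∀ p ∈ D.primeFactors, p ≤ 7)
    (h420 : ¬ 420 ∣ D) (c : ZMod m → ℤ) (hT : TateF (anti c))
    (hmax : ∀ x, D ∣ addOrderOf x → addOrderOf x ≠ D → anti c x = 0) :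
    ∃ c' : ZMod m → ℤ, TateF (anti c') ∧ (∀ x, addOrderOf x = D → anti c' x = 0) ∧
      (∀ x, ¬ addOrderOf x ∣ D → anti c' x = anti c x) ∧ cls m c - cls m c' ∈ E := by
  have hodd : ∀ x : (ZMod D)ˣ, anti c (emb D m ((-x : (ZMod D)ˣ) : ZMod D)) =
      - anti c (emb D m (x : ZMod D)) := by
    intro x
    rw [Units.val_neg, emb_neg hD, anti_odd]
  by_cases hD4 : D % 4 = 2
  · exact ndec_step E hE m D hD c hT (ndec_of_dec D _ (dec_two D hD4 _ hodd))
  have hmd : ∀ L : List ℕ, L.Nodup → L.toFinset = D.primeFactors →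
      MDv (Gam D) L (fun z => anti c (emb D m (z : ZMod D))) :=
    fun L _ hL => mdiff m (anti c) (anti_odd c) hT D hD hmax L fun p hp => by
      rw [← List.mem_toFinset, hL]; exact hp
  set L := D.primeFactors.toList with hLdef
  have hLn : L.Nodup := Finset.nodup_toList _
  have hLt : L.toFinset = D.primeFactors := Finset.toList_toFinset _
  by_cases h1 : (-1 : (ZMod D)ˣ) ∈ Pl (Gam D) L
  · have hs := sqf_of_neg_one D L hLt h1
    have hprod := (eq_prod_lam D hD4 hs).1
    have hcard := SM_card D hpr h420 hprod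
    rcases Nat.lt_or_ge D.primeFactors.card 2 with h2 | h2
    · exact ndec_step E hE m D hD c hT
        (ndec_one D (by omega) L hLn hLt h1 _ hodd (hmd L hLn hLt))
    · rcases Nat.lt_or_ge D.primeFactors.card 3 with h3 | h3
      · -- two primes
        obtain ⟨p, q, hpq, hpqD⟩ := Finset.card_eq_two.1 (show D.primeFactors.card = 2 by omega)
        have hp : p ∈ D.primeFactors := by rw [hpqD]; simp
        have hq : q ∈ D.primeFactors := by rw [hpqD]; simp
        have hmem := SM_pair p q (Nat.prime_of_mem_primeFactors hp)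
          (Nat.prime_of_mem_primeFactors hq) (hpr p hp) (hpr q hq) hpq
        rw [hpqD, Finset.prod_pair hpq] at hprod
        rw [← hprod] at hmem
        exact fix_step E hE m D hD (hF D inferInstance hmem) c hT hmax
      · exact ndec_step E hE m D hD c hT (ndec_three D hD4 (by omega) hs _ hodd hmd)
  · exact ndec_step E hE m D hD c hT (ndec_half D L hLn hLt h1 _ hodd (hmd L hLn hLt))

open Pool.Agent.helper34.DH in
theorem smooth (E : AddSubgroup Qt) (hE : hh ∈ E)
    (hF : ∀ D : ℕ, ∀ _ : NeZero D, D ∈ ({12, 15, 20, 21, 28, 35} : Finset ℕ) → FixE E D)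
    (m : ℕ) [NeZero m] (c : ZMod m → ℤ) (hT : TateF (anti c))
    (hsm : ∀ x, anti c x ≠ 0 → (∀ p : ℕ, p.Prime → p ∣ addOrderOf x → p ≤ 7) ∧
      ¬ 420 ∣ addOrderOf x) : cls m c ∈ E := by
  have key : ∀ (D : ℕ) (c : ZMod m → ℤ), TateF (anti c) →
      (∀ x, anti c x ≠ 0 → (∀ p : ℕ, p.Prime → p ∣ addOrderOf x → p ≤ 7) ∧
        ¬ 420 ∣ addOrderOf x) → (∀ x, anti c x ≠ 0 → addOrderOf x ≤ D) → cls m c ∈ E := by
    intro D
    induction D with
    | zero =>
      intro c _ _ h
      obtain ⟨j, hj⟩ := cls_even m c (by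
        intro x
        by_contra hx
        have := h x hx
        have h2 := addOrderOf_pos x
        omega)
      rw [hj]
      exact E.zsmul_mem hE j
    | succ D ih =>
      intro c hT hsm h
      by_cases hD : (D + 1) ∣ m ∧ (∀ p ∈ (D + 1).primeFactors, p ≤ 7) ∧ ¬ 420 ∣ (D + 1)
      · obtain ⟨hDm, hpr, h420⟩ := hD
        have : NeZero (D + 1) := ⟨Nat.succ_ne_zero D⟩
        obtain ⟨c', h1, h2, h3, h4⟩ := SM_stage E hE hF m (D + 1) hDm hpr h420 c hT (by
          intro x hx hx2
          by_contra hx3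
          have h5 := h x hx3
          have h6 := Nat.le_of_dvd (addOrderOf_pos x) hx
          omega)
        have hcond : ∀ x, anti c' x ≠ 0 →
            ((∀ p : ℕ, p.Prime → p ∣ addOrderOf x → p ≤ 7) ∧ ¬ 420 ∣ addOrderOf x) ∧
              addOrderOf x ≤ D := by
          intro x hx
          by_cases hxD : addOrderOf x ∣ (D + 1)
          · refine ⟨⟨fun p hp hpx => hpr p (Nat.mem_primeFactors.2
              ⟨hp, hpx.trans hxD, Nat.succ_ne_zero D⟩), fun h => h420 (h.trans hxD)⟩, ?_⟩
            have h5 := Nat.le_of_dvd (Nat.succ_pos D) hxD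
            have h6 : addOrderOf x ≠ D + 1 := fun h7 => hx (h2 x h7)
            omega
          · rw [h3 x hxD] at hx
            refine ⟨hsm x hx, ?_⟩
            have h5 := h x hx
            have h6 : addOrderOf x ≠ D + 1 := fun h7 => hxD (h7 ▸ dvd_rfl)
            omega
        have h5 := ih c' h1 (fun x hx => (hcond x hx).1) (fun x hx => (hcond x hx).2)
        have h6 := E.add_mem h4 h5
        rwa [sub_add_cancel] at h6
      · apply ih c hT hsm
        intro x hx
        have h1 := h x hx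
        have h2 : addOrderOf x ≠ D + 1 := by
          intro h3
          apply hD
          refine ⟨h3 ▸ addOrderOf_dvd' x, ?_, ?_⟩
          · intro p hp
            exact (hsm x hx).1 p (Nat.prime_of_mem_primeFactors hp)
              (h3 ▸ Nat.dvd_of_mem_primeFactors hp)
          · exact h3 ▸ (hsm x hx).2
        omega
  exact key m c hT hsm fun x _ =>
    Nat.le_of_dvd (Nat.pos_of_ne_zero (NeZero.ne m)) (addOrderOf_dvd' x)

end Pool.Agent.helper88.EF
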